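import Pool.Agent.H26.LP.Stm

/-! # Project LP, module FIN (helper99) -/

set_option autoImplicit false

namespace Pool.Agent.H99.LP

open MeasureTheory Set Metric Filter Topology
open scoped InnerProductSpace ENNReal NNReal ComplexConjugate
open Pool.Agent.Q130.TC (WT cau)
open Pool.Agent.H26.LP

theorem mul1_cs {S : Type} [MeasurableSpace S] {μ : Measure S} {g : S → ℂ} {v : ℕ → S → ℂ} {B M : ℝ}
    (hg : Measurable g) (hgM : ∀ s, ‖g s‖ ≤ M) (hv : Mul1 μ v B) : Mul1 μ (cs g v) (|M| + B) where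
  meas := fun i => by
    cases i with
    | zero => exact hg
    | succ i => exact hv.meas i
  nonneg := add_nonneg (abs_nonneg _) hv.nonneg
  bound := by
    filter_upwards [hv.bound] with s hs m
    cases m with
    | zero => simp; positivity
    | succ m =>
      rw [Finset.sum_range_succ']
      have h1 := hs m
      have h2 : ‖g s‖ ≤ |M| := (hgM s).trans (le_abs_self M)
      have h3 : ‖g s‖ ^ 2 ≤ |M| ^ 2 := pow_le_pow_left₀ (norm_nonneg _) h2 2
      have h4 : ∑ i ∈ Finset.range m, ‖cs g v (i + 1) s‖ ^ 2 = ∑ i ∈ Finset.range m, ‖v i s‖ ^ 2 := rfl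
      have h5 : ‖cs g v 0 s‖ ^ 2 = ‖g s‖ ^ 2 := rfl
      rw [h4, h5]
      have h6 : 0 ≤ |M| * B := mul_nonneg (abs_nonneg _) hv.nonneg
      nlinarith

theorem sqf_cs {S : Type} [MeasurableSpace S] {μ : Measure S} {E : Type} [NormedAddCommGroup E]
    [NormedSpace ℂ E] (J : E →L[ℂ] Lp ℂ 1 μ) {u : ℕ → E} {Y : S → ℝ} (x₀ : E)
    (hu : Sqf μ (fun j => (J (u j) : S → ℂ)) Y) :
    Sqf μ (fun j => (J (cs x₀ u j) : S → ℂ)) (fun s => ‖J x₀ s‖ + Y s) where
  meas := fun j => (Lp.stronglyMeasurable _).measurable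
  measY := (Lp.stronglyMeasurable _).measurable.norm.add hu.measY
  nonneg := fun s => add_nonneg (norm_nonneg _) (hu.nonneg s)
  int := (L1.integrable_coeFn _).norm.add hu.int
  bound := by
    filter_upwards [hu.bound] with s hs m
    cases m with
    | zero => simp; positivity
    | succ m =>
      rw [Finset.sum_range_succ']
      have h1 := hs m
      have h4 : ∑ i ∈ Finset.range m, ‖J (cs x₀ u (i + 1)) s‖ ^ 2 = ∑ i ∈ Finset.range m, ‖J (u i) s‖ ^ 2 := rfl
      have h5 : ‖J (cs x₀ u 0) s‖ ^ 2 = ‖J x₀ s‖ ^ 2 := rfl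
      rw [h4, h5]
      have h6 : 0 ≤ ‖J x₀ s‖ * Y s := mul_nonneg (norm_nonneg _) (hu.nonneg s)
      nlinarith

theorem fin (hINS : S_INS) (hSCH : S_SCH) (hCAZ : S_CAZ) : S_FIN := by
  intro S _ μ _ φ E _ _ _ A K J g v u B M Y hφ hφb hJA hg hgM hann hne hv hu hK
  have hD : ¬ Dim1 E := by
    rintro ⟨x, hx⟩
    obtain ⟨c, hc⟩ := hx (A x)
    obtain ⟨y, hy⟩ := hne
    refine hy ?_
    have hAy : A y = c • y := by
      obtain ⟨t, rfl⟩ := hx y
      rw [map_smul, hc, smul_comm]
    have h1 : (J (A y) : S → ℂ) =ᵐ[μ] fun s => c * J y s := by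
      rw [hAy, map_smul]
      filter_upwards [Lp.coeFn_smul c (J y)] with s hs
      rw [hs]; rfl
    have h2 : ∀ᵐ s ∂μ, g s * J y s * conj (φ s) = conj c * (g s * J y s) := by
      filter_upwards [h1, hJA y] with s hs1 hs2
      have h3 : (φ s - c) * J y s = 0 := by
        rw [sub_mul, ← hs1, ← hs2, sub_self]
      rcases mul_eq_zero.1 h3 with h4 | h4
      · rw [sub_eq_zero.1 h4]; ring
      · rw [h4]; ring
    rw [integral_congr_ae h2, integral_const_mul, hann y, mul_zero]
  by_contra hN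
  obtain ⟨y, hy⟩ := hne
  have hdat : Dat μ φ A K J (cs g v) (cs y u) (|M| + B) (fun s => ‖J y s‖ + Y s) :=
    { mφ := hφ
      bφ := hφb
      JA := hJA
      mw := mul1_cs hg hgM hv
      sf := sqf_cs J y hu
      ann := hann
      rep := hK }
  obtain ⟨C₀, hCS⟩ := hINS S μ φ E A K J (cs g v) (cs y u) (|M| + B) _ hdat
  have h0 := hSCH E (A + K) _ (cs y u) C₀ hCS hD hN
  have hint : Integrable (fun s => g s * J y s) μ := by
    refine Integrable.mono' ((L1.integrable_coeFn (J y)).norm.const_mul |M|)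
      (hg.mul (Lp.stronglyMeasurable (J y)).measurable).aestronglyMeasurable ?_
    refine Eventually.of_forall fun s => ?_
    rw [norm_mul]
    exact mul_le_mul_of_nonneg_right ((hgM s).trans (le_abs_self M)) (norm_nonneg _)
  exact hy (hCAZ S μ φ (fun s => g s * J y s) hφ hφb (hg.mul (Lp.stronglyMeasurable (J y)).measurable) hint h0)

end Pool.Agent.H99.LP
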